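import Pool.Agent.TH894.NE4

/-!
# The Lang–Trotter primitive point conjecture: a law with square-root error for almost all pairs of an elliptic curve and a point from arbitrarily thin
polynomial families

Nothing is used besides Mathlib in the statement.
-/

set_option autoImplicit false

namespace Pool.Agent.Results.MP_9b1c99_nt.FewDigitPrimitivePoints

open Finset

/-- The value of the polynomial `F` at the vector `m`. -/
noncomputable def val {d : ℕ} (F : MvPolynomial (Fin d) ℤ) (m : Fin d → ℕ) : ℤ := MvPolynomial.eval (fun i => (m i : ℤ)) F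

/-- The curve `Y ^ 2 = X ^ 3 + a X + (v ^ 2 - u ^ 3 - a u)`, which contains the point `(u, v)`. Every pair of a curve `Y ^ 2 = X ^ 3 + a X + e` with integral coefficients and
a point `(u, v)` with integral coordinates on it is of this form. -/
def curve {R : Type} [CommRing R] (a u v : R) : WeierstrassCurve R where
  a₁ := 0
  a₂ := 0
  a₃ := 0
  a₄ := a
  a₆ := v ^ 2 - u ^ 3 - a * u

/-- The curve `curve a u v` over `ℤ/p` (`p` prime) is nonsingular, and its group of points is generated by the point `(u, v)`. -/
def Generates (p : ℕ) (a u v : ZMod p) : Prop :=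
  ∃ _ : Fact p.Prime, (curve a u v).Δ ≠ 0 ∧ ∃ h : (curve a u v).toAffine.Nonsingular u v,
    ∀ R : (curve a u v).toAffine.Point, R ∈ AddSubgroup.zmultiples (WeierstrassCurve.Affine.Point.some (h := h))

/-- The prime `p` belongs to `S`, it does not divide the discriminant of the curve `E = curve (F (m)) (G (m)) (H (m))`, and the reduction modulo `p` of the point
`P = (G (m), H (m))` of `E` generates `E(𝔽_p)`. -/
def Has {d : ℕ} (F G H : MvPolynomial (Fin d) ℤ) (S : Set ℕ) (p : ℕ) (m : Fin d → ℕ) : Prop :=
  p ∈ S ∧ Generates p (val F m : ZMod p) (val G m : ZMod p) (val H m : ZMod p)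

open Classical in
/-- The number of the primes `p ≤ x` in `S` of good reduction (of the model) for which `E(𝔽_p)` is generated by `P` modulo `p`. -/
noncomputable def count {d : ℕ} (F G H : MvPolynomial (Fin d) ℤ) (S : Set ℕ) (m : Fin d → ℕ) (x : ℕ) : ℕ :=
  ((range (x + 1)).filter (fun p => p.Prime ∧ Has F G H S p m)).card

open Classical in
/-- The expected number: the sum over the primes `p ≤ x` of the proportion of the vectors `m` modulo `p` with the property. -/
noncomputable def expected {d : ℕ} (F G H : MvPolynomial (Fin d) ℤ) (S : Set ℕ) (x : ℕ) : ℝ :=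
  ∑ p ∈ (range (x + 1)).filter Nat.Prime, (((Fintype.piFinset (fun _ : Fin d => range p)).filter (fun m => Has F G H S p m)).card : ℝ) / (p : ℝ) ^ d

/-- The digit number `i` (counted from the right, beginning with `0`) of `n` in base `b`. -/
def digit (b i n : ℕ) : ℕ := n / b ^ i % b

/-- The number which arises from the number `N` with at most `K` digits in base `b`, if for every `i ∈ S`
the digit number `i` is replaced by `f i`. -/
def change (b K N : ℕ) (f : ℕ → ℕ) (S : Finset ℕ) : ℕ :=
  ∑ i ∈ range K, (if i ∈ S then f i else digit b i N) * b ^ i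

open Classical in
/-- The number of the choices of `s l` of `K l` positions for all `l < d` for which the vector of the numbers obtained by
changing the digits of the `N l` at the chosen positions (according to `f l`) does not have the property `E`. -/
noncomputable def exceptions {d : ℕ} (b : ℕ) (K s N : Fin d → ℕ) (f : Fin d → ℕ → ℕ) (E : (Fin d → ℕ) → Prop) : ℕ :=
  ((Fintype.piFinset (fun l => powersetCard (s l) (range (K l)))).filter
    (fun S => ¬ E (fun l => change b (K l) (N l) (f l) (S l)))).card

private lemma val_cast {d : ℕ} (p : ℕ) (F : MvPolynomial (Fin d) ℤ) (m : Fin d → ℕ) :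
    ((val F m : ℤ) : ZMod p) = ((val F (fun i => m i % p) : ℤ) : ZMod p) := by
  have h : ∀ n : Fin d → ℕ, ((val F n : ℤ) : ZMod p) = MvPolynomial.eval (fun i => (n i : ZMod p)) (MvPolynomial.map (Int.castRingHom (ZMod p)) F) := by
    intro n
    unfold val
    have h1 := MvPolynomial.map_eval (Int.castRingHom (ZMod p)) (fun i => (n i : ℤ)) F
    have h2 : (⇑(Int.castRingHom (ZMod p)) ∘ fun i => (n i : ℤ)) = fun i => (n i : ZMod p) := by
      funext i
      simp
    rw [h2] at h1
    exact h1
  rw [h, h]
  congr 2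
  funext i
  rw [ZMod.natCast_mod]

private lemma has_mod {d : ℕ} (F G H : MvPolynomial (Fin d) ℤ) (S : Set ℕ) (p : ℕ) (m : Fin d → ℕ) :
    Has F G H S p m ↔ Has F G H S p (fun i => m i % p) := by
  unfold Has
  rw [val_cast p F m, val_cast p G m, val_cast p H m]

/-- **Primitive points in thin families.** Let a base `b ≥ 2`, integers `d ≥ 1`, `A ≥ 0` and `δ > 0` be given. There are
`c > 0` and `y₀` such that for all integers `r_l`, `K_l` (`l = 1, ..., d`), `y` with `2 r_l ≤ K_l` and `y ≥ y₀` the following holds.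

Let `0 ≤ N_l < b ^ K_l` be arbitrary integers, prescribe for every position `j` a digit `g l j` different from the digit of
`N_l` in base `b`, and let `Λ x` be for every `x` any set of at most `x ^ A` systems `(F, G, H; S)` of polynomials in `d` variables with integer coefficients and a set `S` of
integers (for instance an arithmetic progression). If one chooses `r_l` of the `K_l` positions and replaces the digits of `N_l` at these positions, then for all but at most a proportion
`1 / y ^ A` of the choices the vector `m` obtained has the following property: for all integers `x` with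
`y ≤ x ≤ exp (c r_l)` for all `l` and all systems from `Λ x`, the number of the primes `p ≤ x` in `S` for which
`E : Y ^ 2 = X ^ 3 + a X + (v ^ 2 - u ^ 3 - a u)`, `a = F (m)`, `u = G (m)`, `v = H (m)`, has good reduction and `E(𝔽_p)` is generated by the point `P = (u, v)` modulo `p`
differs from its expected value `V` by at most `(max 1 V) ^ (1 / 2) x ^ δ`. -/
theorem result (b d : ℕ) (hb : 2 ≤ b) (hd : 1 ≤ d) (δ : ℝ) (hδ : 0 < δ) (A : ℕ) :
    ∃ c : ℝ, 0 < c ∧ ∃ y₀ : ℕ,
    ∀ (K r : Fin d → ℕ) (y : ℕ), (∀ l, 2 * r l ≤ K l) → y₀ ≤ y →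
    ∀ N : Fin d → ℕ, (∀ l, N l < b ^ K l) → ∀ g : Fin d → ℕ → ℕ, (∀ l j, g l j < b ∧ g l j ≠ digit b j (N l)) →
    ∀ (κ : Type) (F G H : κ → MvPolynomial (Fin d) ℤ) (S : κ → Set ℕ) (Λ : ℕ → Finset κ), (∀ x, (Λ x).card ≤ x ^ A) →
      (exceptions b K r N g (fun m => ∀ x : ℕ, y ≤ x → (∀ l, (x : ℝ) ≤ Real.exp (c * r l)) → ∀ i ∈ Λ x,
        |(count (F i) (G i) (H i) (S i) m x : ℝ) - expected (F i) (G i) (H i) (S i) x| ≤
          Real.sqrt (max 1 (expected (F i) (G i) (H i) (S i) x)) * (x : ℝ) ^ δ) : ℝ) ≤
        1 / (y : ℝ) ^ A * ∏ l, ((K l).choose (r l) : ℝ) := by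
  classical
  obtain ⟨c, hc, x₀, h⟩ := Pool.Agent.TH894.NE.law2 b d hb hd δ A A hδ
  refine ⟨c, hc, x₀ + 3, fun K r y hrK hy N hN g hg κ F G H S Λ hΛ => ?_⟩
  have hy0 : (0 : ℝ) < y := by exact_mod_cast (by omega : 0 < y)
  have h1 : 1 / (y : ℝ) ^ A = (y : ℝ) ^ (-(A : ℝ)) := by
    rw [Real.rpow_neg hy0.le, Real.rpow_natCast, one_div]
  rw [h1]
  unfold exceptions
  refine h r K y hrK (by omega) N hN g hg κ Λ ?_ ℕ (fun x _ => (range (x + 1)).filter Nat.Prime) (fun _ p => p) ?_ ?_
    (fun i p m => Has (F i) (G i) (H i) (S i) p m) ?_ _ (filter_subset _ _) ?_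
  · intro x _
    rw [Real.rpow_natCast]
    exact_mod_cast hΛ x
  · intro x l _ p hp
    rw [mem_filter, mem_range] at hp
    exact ⟨hp.2.one_lt.le, by omega⟩
  · intro x l _ p hp p' hp' hne
    rw [mem_filter] at hp hp'
    exact (Nat.coprime_primes hp.2 hp'.2).2 hne
  · intro x i _ p _ m
    exact has_mod (F i) (G i) (H i) (S i) p m
  · intro T hT
    rw [mem_filter] at hT
    obtain ⟨_, hT2⟩ := hT
    push Not at hT2
    obtain ⟨x, hyx, hxr, i, hi, hlt⟩ := hT2
    have hx0 : (0 : ℝ) < x := by exact_mod_cast (by omega : 0 < x)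
    have hexp : expected (F i) (G i) (H i) (S i) x = ∑ p ∈ (range (x + 1)).filter Nat.Prime,
        Pool.Agent.TH894.NE.Pr d p (fun m => Has (F i) (G i) (H i) (S i) p m) := by
      unfold expected Pool.Agent.TH894.NE.Pr Pool.Agent.TH894.NE.box
      rfl
    have hcount : ∀ m : Fin d → ℕ, (count (F i) (G i) (H i) (S i) m x : ℝ) =
        ((((range (x + 1)).filter Nat.Prime).filter (fun p => Has (F i) (G i) (H i) (S i) p m)).card : ℝ) := by
      intro m
      unfold count
      rw [filter_filter]
    refine ⟨x, hyx, fun l => (Real.log_le_iff_le_exp hx0).2 (hxr l), i, hi, ?_⟩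
    rw [hcount, hexp] at hlt
    exact hlt

end Pool.Agent.Results.MP_9b1c99_nt.FewDigitPrimitivePoints
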